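import Pool.Agent.P.MP_9167e9_an.StW

/-!
Module TREE: the Cayley tree of a free group as a wall space.
-/

noncomputable section
open scoped Classical

namespace Pool.Agent.P.MP_9167e9_an

namespace Tree

open FreeGroup

variable {S : Type}

/-- The reduced word of an element. -/
def wd (f : FreeGroup S) : List (S × Bool) := @toWord S (Classical.decEq S) f

theorem mk_wd (f : FreeGroup S) : mk (wd f) = f := @mk_toWord S (Classical.decEq S) f

theorem red_wd (f : FreeGroup S) : IsReduced (wd f) := @isReduced_toWord S (Classical.decEq S) f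

theorem wd_mk {u : List (S × Bool)} (h : IsReduced u) : wd (mk u) = u :=
  @IsReduced.reduce_eq S u (Classical.decEq S) h

theorem red_tail {l : S × Bool} {u : List (S × Bool)} (h : IsReduced (l :: u)) : IsReduced u :=
  List.IsChain.right_of_append (l₁ := [l]) h

theorem wd_inv (f : FreeGroup S) : wd f⁻¹ = invRev (wd f) := @toWord_inv S (Classical.decEq S) f

theorem nr_eq (f : FreeGroup S) : nr f = (wd f).length := rfl

theorem wd_one : wd (1 : FreeGroup S) = [] := rfl

theorem wd_of (s : S) : wd (of s) = [(s, true)] := rfl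

theorem mk_cons (l : S × Bool) (u : List (S × Bool)) : mk (l :: u) = mk [l] * mk u := rfl

theorem mk_true (s : S) : mk [(s, true)] = of s := rfl

theorem mk_false (s : S) : mk [(s, false)] = (of s)⁻¹ := rfl

/-- The first step of the geodesic from `1` to `f` is `s`. -/
def pos (s : S) (f : FreeGroup S) : Prop := (wd f).getLast? = some (s, true)

theorem pos_one (s : S) : ¬ pos s 1 := by simp [pos, wd_one]

theorem pos_of (s : S) : pos s (of s) := by simp [pos, wd_of]

theorem pos_ne (s t : S) (f : FreeGroup S) : pos s f ≠ pos s (of t * f) ↔ f = 1 ∧ s = t := by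
  obtain ⟨u, hu, rfl⟩ : ∃ u, IsReduced u ∧ f = mk u := ⟨wd f, red_wd f, (mk_wd f).symm⟩
  cases u with
  | nil =>
    have h1 : (mk [] : FreeGroup S) = 1 := rfl
    rw [h1, mul_one]
    simp [pos, wd_one, wd_of, eq_comm]
  | cons l u =>
    have hne : mk (l :: u) ≠ 1 := fun h => by
      have := wd_mk hu
      rw [h, wd_one] at this
      simp at this
    simp only [hne, false_and, iff_false, ne_eq, not_not]
    by_cases hl : l = (t, false)
    · subst hl
      have h2 : of t * mk ((t, false) :: u) = mk u := by
        rw [mk_cons, mk_false, mul_inv_cancel_left]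
      have hu' : IsReduced u := red_tail hu
      rw [h2]
      unfold pos
      rw [wd_mk hu, wd_mk hu']
      cases u with
      | nil => simp
      | cons l' u => simp
    · have hr : IsReduced ((t, true) :: l :: u) := by
        refine isReduced_cons_cons.2 ⟨fun h => ?_, hu⟩
        obtain ⟨a, b⟩ := l
        cases b
        · exact absurd (by simp at h; simp [h]) hl
        · rfl
      have h2 : of t * mk (l :: u) = mk ((t, true) :: l :: u) := rfl
      rw [h2]
      unfold pos
      rw [wd_mk hu, wd_mk hr]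
      simp

/-- The side of a wall. -/
def sec (a : FreeGroup S × S) (y : FreeGroup S) : Prop := pos a.2 (y * a.1⁻¹)

/-- The edge crossed by the step `l` from `y`. -/
def ed (l : S × Bool) (y : FreeGroup S) : FreeGroup S × S :=
  if l.2 then (y, l.1) else (mk [l] * y, l.1)

/-- The end points of an edge. -/
def car (a : FreeGroup S × S) : Set (FreeGroup S) := {a.1, of a.2 * a.1}

theorem sec_of (a : FreeGroup S × S) (t : S) (y : FreeGroup S) :
    sec a y ≠ sec a (of t * y) ↔ a = (y, t) := by
  unfold sec
  rw [mul_assoc, pos_ne, mul_inv_eq_one, Prod.ext_iff]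
  simp [eq_comm]

theorem sec_step (a : FreeGroup S × S) (l : S × Bool) (y : FreeGroup S) :
    sec a y ≠ sec a (mk [l] * y) ↔ a = ed l y := by
  obtain ⟨t, b⟩ := l
  cases b
  · have h := sec_of a t (mk [(t, false)] * y)
    rw [mk_false, mul_inv_cancel_left] at h
    rw [mk_false, ne_comm, h]
    simp [ed, mk_false]
  · rw [mk_true, sec_of]
    simp [ed]

theorem car_ed (l : S × Bool) (y : FreeGroup S) : car (ed l y) = {y, mk [l] * y} := by
  obtain ⟨t, b⟩ := l
  cases b
  · simp [car, ed, mk_false, Set.pair_comm]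
  · simp [car, ed, mk_true]

theorem sec_new {l : S × Bool} {u : List (S × Bool)} (h : IsReduced (l :: u)) (x : FreeGroup S) :
    sec (ed l (mk u * x)) x = sec (ed l (mk u * x)) (mk u * x) := by
  have hu : IsReduced u := red_tail h
  obtain ⟨t, b⟩ := l
  cases b
  · have h1 : x * (mk [(t, false)] * (mk u * x))⁻¹ = (mk ((t, false) :: u))⁻¹ := by
      rw [mk_cons (t, false) u]; group
    have h2 : mk u * x * (mk [(t, false)] * (mk u * x))⁻¹ = of t := by
      rw [mk_false]; group
    simp only [sec, ed, Bool.false_eq_true, if_false]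
    rw [h1, h2, eq_true (pos_of t), eq_iff_iff, iff_true, pos, wd_inv, wd_mk h]
    simp [invRev]
  · have h1 : x * (mk u * x)⁻¹ = (mk u)⁻¹ := by group
    simp only [sec, ed, if_true]
    rw [h1, mul_inv_cancel, eq_false (pos_one t), eq_iff_iff, iff_false, pos, wd_inv, wd_mk hu]
    cases u with
    | nil => simp
    | cons l' u =>
      have h3 := (isReduced_cons_cons.1 h).1
      obtain ⟨t', b'⟩ := l'
      simp only [invRev, List.map_cons, List.reverse_cons, List.getLast?_append,
        List.getLast?_singleton, Option.some_or, Option.some.injEq, Prod.mk.injEq, not_and]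
      rintro rfl
      have := h3 rfl
      simp at this
      simp [this]

/-- The edges crossed by a walk. -/
def Wl : List (S × Bool) → FreeGroup S → Finset (FreeGroup S × S)
  | [], _ => ∅
  | l :: u, x => insert (ed l (mk u * x)) (Wl u x)

theorem mem_Wl : ∀ {u : List (S × Bool)}, IsReduced u → ∀ (x : FreeGroup S) a,
    a ∈ Wl u x ↔ sec a x ≠ sec a (mk u * x)
  | [], _, x, a => by
    have h1 : (mk [] : FreeGroup S) = 1 := rfl
    simp [Wl, h1]
  | l :: u, h, x, a => by
    have hu : IsReduced u := red_tail h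
    rw [Wl, Finset.mem_insert, mem_Wl hu, mk_cons, mul_assoc]
    have h1 := sec_step a l (mk u * x)
    have h2 := sec_new h x
    by_cases ha : a = ed l (mk u * x)
    · rw [← ha] at h2
      rw [h2, h1]
      simp only [ha, true_or]
    · have h3 : sec a (mk u * x) = sec a (mk [l] * (mk u * x)) := by
        by_contra h4
        exact ha (h1.1 h4)
      rw [← h3]
      simp only [ha, false_or]

theorem notMem_Wl {l : S × Bool} {u : List (S × Bool)} (h : IsReduced (l :: u))
    (x : FreeGroup S) : ed l (mk u * x) ∉ Wl u x := by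
  rw [mem_Wl (red_tail h), sec_new h]
  simp

theorem card_Wl : ∀ {u : List (S × Bool)}, IsReduced u → ∀ x : FreeGroup S,
    (Wl u x).card = u.length
  | [], _, x => by simp [Wl]
  | l :: u, h, x => by
    rw [Wl, Finset.card_insert_of_notMem (notMem_Wl h x),
      card_Wl (red_tail h), List.length_cons]

theorem thr_Wl : ∀ {u : List (S × Bool)}, IsReduced u → ∀ (x : FreeGroup S) a, a ∈ Wl u x →
    ∃ p ∈ car a, nr (p * x⁻¹) < u.length
  | [], _, x, a, ha => by simp [Wl] at ha
  | l :: u, h, x, a, ha => by
    have hu : IsReduced u := red_tail h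
    rw [Wl, Finset.mem_insert] at ha
    rcases ha with rfl | ha
    · refine ⟨mk u * x, by simp [car_ed], ?_⟩
      rw [mul_inv_cancel_right, nr_eq, wd_mk hu]
      simp
    · obtain ⟨p, hp, h2⟩ := thr_Wl hu x a ha
      exact ⟨p, hp, h2.trans (by simp)⟩

/-- The edges separating two points. -/
def W (x y : FreeGroup S) : Finset (FreeGroup S × S) := Wl (wd (y * x⁻¹)) x

theorem mem_W (a : FreeGroup S × S) (x y : FreeGroup S) : a ∈ W x y ↔ sec a x ≠ sec a y := by
  rw [W, mem_Wl (red_wd _), mk_wd, inv_mul_cancel_right]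

theorem card_W (x y : FreeGroup S) : (W x y).card = nr (y * x⁻¹) := card_Wl (red_wd _) x

theorem W_comm (x y : FreeGroup S) : W x y = W y x := by
  ext a; rw [mem_W, mem_W, ne_comm]

theorem W_step (l : S × Bool) (y : FreeGroup S) : W y (mk [l] * y) = {ed l y} := by
  ext a; rw [mem_W, sec_step, Finset.mem_singleton]

theorem two (a : FreeGroup S × S) (x y z : FreeGroup S) (h1 : a ∈ W x y) (h2 : a ∈ W x z) :
    a ∉ W y z := by
  rw [mem_W] at *
  simp only [ne_eq, eq_iff_iff] at *
  tauto

theorem thr {a : FreeGroup S × S} {x y : FreeGroup S} (h : a ∈ W x y) :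
    ∃ p ∈ car a, (W x p).card < (W x y).card := by
  obtain ⟨p, hp, h2⟩ := thr_Wl (red_wd _) x a h
  exact ⟨p, hp, by rw [card_W, card_W]; exact h2⟩

theorem card_add {x y z : FreeGroup S} (h : ∀ a ∈ W x y, a ∉ W y z) :
    (W x z).card = (W x y).card + (W y z).card := by
  rw [← Finset.card_union_of_disjoint (Finset.disjoint_left.2 h)]
  congr 1
  ext a
  have := h a
  rw [Finset.mem_union]
  simp only [mem_W, ne_eq, eq_iff_iff] at *
  tauto

theorem step (x y : FreeGroup S) (h : x ≠ y) :
    ∃ l z, x = mk [l] * z ∧ ed l z ∈ W y x ∧ ed l z ∉ W y z := by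
  obtain ⟨u, hu, rfl⟩ : ∃ u, IsReduced u ∧ x = mk u * y :=
    ⟨wd (x * y⁻¹), red_wd _, by rw [mk_wd, inv_mul_cancel_right]⟩
  cases u with
  | nil => exact absurd (one_mul y) h
  | cons l u =>
    refine ⟨l, mk u * y, by rw [mk_cons, mul_assoc], ?_, ?_⟩
    · rw [W, mul_inv_cancel_right, wd_mk hu, Wl]
      exact Finset.mem_insert_self _ _
    · rw [W, mul_inv_cancel_right, wd_mk (red_tail hu)]
      exact notMem_Wl hu y

theorem cross {T : Set (FreeGroup S)} (hT : Conn T) {a : FreeGroup S × S} {p q : FreeGroup S}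
    (hp : p ∈ T) (hq : q ∈ T) (h : a ∈ W p q) : car a ⊆ T := by
  have key : ∀ q, Relation.ReflTransGen
      (fun a b => b ∈ T ∧ ∃ s, b = FreeGroup.of s * a ∨ a = FreeGroup.of s * b) p q →
      q ∈ T ∧ (sec a p = sec a q ∨ car a ⊆ T) := by
    intro q hq
    induction hq with
    | refl => exact ⟨hp, Or.inl rfl⟩
    | @tail b c _ h2 ih =>
      obtain ⟨hc, s, hs⟩ := h2
      refine ⟨hc, ?_⟩
      obtain ⟨hb, h3 | h3⟩ := ih
      · by_cases h4 : sec a b = sec a c
        · exact Or.inl (h3.trans h4)
        · right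
          rcases hs with rfl | rfl
          · rw [(sec_of a s b).1 h4]
            rintro _ (rfl | rfl)
            exacts [hb, hc]
          · rw [(sec_of a s c).1 (Ne.symm h4)]
            rintro _ (rfl | rfl)
            exacts [hc, hb]
      · exact Or.inr h3
  exact (key q (hT p hp q hq)).2.resolve_left ((mem_W a p q).1 h)

theorem gate {T : Set (FreeGroup S)} (hne : T.Nonempty) (hT : Conn T) (x : FreeGroup S) :
    ∃ c ∈ T, ∀ c' ∈ T, (W x c').card = (W x c).card + (W c c').card := by
  obtain ⟨c, hc, hmin⟩ := (measure fun c => (W x c).card).wf.has_min T hne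
  refine ⟨c, hc, fun c' hc' => card_add fun a h1 h2 => ?_⟩
  obtain ⟨p, hp, h3⟩ := thr h1
  exact hmin p (cross hT hc hc' h2 hp) h3

theorem conn_car (a : FreeGroup S × S) : Conn (car a) := by
  rintro _ (rfl | rfl) _ (rfl | rfl)
  · exact .refl
  · exact .single ⟨Or.inr rfl, a.2, Or.inl rfl⟩
  · exact .single ⟨Or.inl rfl, a.2, Or.inr rfl⟩
  · exact .refl

theorem wd_mul {f g : FreeGroup S} (h : nr (f * g) = nr f + nr g) : wd (f * g) = wd f ++ wd g :=
  (@toWord_mul_sublist S (Classical.decEq S) f g).eq_of_length (by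
    rw [List.length_append]; exact h)

theorem geo_uniq (x y z z' : FreeGroup S) (h1 : (W x y).card = (W x z).card + (W z y).card)
    (h2 : (W x y).card = (W x z').card + (W z' y).card) (h3 : (W x z).card = (W x z').card) :
    z = z' := by
  simp only [card_W] at h1 h2 h3
  have e1 : y * x⁻¹ = y * z⁻¹ * (z * x⁻¹) := by group
  have e2 : y * x⁻¹ = y * z'⁻¹ * (z' * x⁻¹) := by group
  have k1 := wd_mul (f := y * z⁻¹) (g := z * x⁻¹) (by rw [← e1, h1, add_comm])
  have k2 := wd_mul (f := y * z'⁻¹) (g := z' * x⁻¹) (by rw [← e2, h2, add_comm])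
  rw [← e1] at k1
  rw [← e2, k1] at k2
  have k3 := (List.append_inj' k2 h3).2
  have k4 : z * x⁻¹ = z' * x⁻¹ := by rw [← mk_wd (z * x⁻¹), k3, mk_wd]
  exact mul_right_cancel k4

/-- The wall space of the tree. -/
def ws (S : Type) : PreWS (FreeGroup S) (FreeGroup S × S) where
  Sec := Prop
  sec := sec
  W := W
  mem_W := mem_W
  aw a g := (a.1 * g, a.2)
  aw_one a := by simp
  aw_mul a g g' := by simp [mul_assoc]
  W_aw a x y g := by
    have h : ∀ x, sec (a.1 * g, a.2) (x * g) = sec a x := fun x => by
      unfold sec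
      congr 1
      group
    rw [mem_W, mem_W, h, h]
  step x y h := by
    obtain ⟨l, z, h1, h2, h3⟩ := step x y h
    exact ⟨z, ed l z, by rw [W_comm, h1, W_step], by rwa [W_comm], by rwa [W_comm]⟩
  car := car
  car_step x z a h := by
    have hne : x ≠ z := by
      rintro rfl
      have := (mem_W a x x).1 (by rw [h]; exact Finset.mem_singleton_self a)
      exact this rfl
    obtain ⟨l, z', h1, h2, -⟩ := step x z hne
    rw [W_comm, h, Finset.mem_singleton] at h2
    rw [← h2, car_ed, ← h1]
    simp
  car_aw a x g h := by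
    rcases h with rfl | rfl
    · exact Or.inl rfl
    · exact Or.inr (mul_assoc _ _ _)
  car_gate a x h := gate h (conn_car a) x

theorem out (S : Type) : TreeOut (ws S) where
  d_eq x y := by
    show (W x y).card = _
    rw [W_comm, card_W]
  aw_eq _ _ _ := rfl
  car_eq _ _ := rfl
  W_edge x s := W_step (s, true) x
  two := two
  gate T hne hT x := gate hne hT x
  cross T hT x s := by
    constructor
    · rintro ⟨p, hp, q, hq, h⟩
      have h2 := cross hT hp hq h
      exact ⟨h2 (Or.inl rfl), h2 (Or.inr rfl)⟩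
    · rintro ⟨h1, h2⟩
      refine ⟨x, h1, _, h2, ?_⟩
      show (x, s) ∈ W x (mk [(s, true)] * x)
      rw [W_step]
      simp [ed]
  geo_uniq := geo_uniq
  word u v x h := by
    have hv : IsReduced v := List.IsChain.right_of_append h
    constructor
    · show (W x _).card = _
      rw [card_W, mul_inv_cancel_right, nr_eq, wd_mk hv]
    · show (W x _).card = _
      rw [card_W, mul_inv_cancel_right, nr_eq, wd_mk h, List.length_append]

end Tree

theorem pTree : StTree := fun S => ⟨Tree.ws S, Tree.out S⟩

end Pool.Agent.P.MP_9167e9_an
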